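import Pool.Agent.Q260.DS.Stm5

/-! # Project BD, job FU: few zeros give an upper bound -/

set_option autoImplicit false

namespace Pool.Agent.Q26.BD

open Complex Filter Topology Metric Set
open Pool.Agent.Q260.DS

theorem pt_eq (w : ℂ) : w = (w.re : ℂ) + I * (w.im : ℂ) := by
  rw [mul_comm]
  exact (re_add_im w).symm

/-- JOB FU. -/
theorem t_FU (h0 : S_FB) (h1 : S_RT) (h2 : S_GR) : S_FU := by
  intro K A ε δ k hK hA hε hδ hδ1
  obtain ⟨Cr, hCr, hr⟩ := h1 K A (7 / 4) 6 k hK hA (by norm_num)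
  obtain ⟨Cg, hCg, hg⟩ := h2 K A 7 k hK hA (by norm_num)
  have hl4 : 0 ≤ Real.log 4 := Real.log_nonneg (by norm_num)
  have hl5 : 0 ≤ Real.log 5 := Real.log_nonneg (by norm_num)
  obtain ⟨C0, hC0⟩ : ∃ C0 : ℝ, C0 = Cr + K * Real.log 4 + Cg := ⟨_, rfl⟩
  have hK4 : 0 ≤ K * Real.log 4 := by positivity
  have hC01 : 1 ≤ C0 := by
    rw [hC0]
    linarith
  obtain ⟨η, M0, hη, hM0, hfb⟩ := h0 C0 (ε / 2) δ hC01 (by positivity) hδ hδ1
  obtain ⟨C, hC⟩ : ∃ C : ℝ, C = M0 + Cr + K * Real.log 5 + 2 * Cr / ε := ⟨_, rfl⟩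
  have hK5 : 0 ≤ K * Real.log 5 := by positivity
  have hCe : 0 ≤ 2 * Cr / ε := by positivity
  have hC1 : 1 ≤ C := by rw [hC]; linarith
  refine ⟨η, C, hη, hC1, ?_⟩
  intro y0 f l g hS cs hcs y θ hCl hθ hθ1 hfew
  have hr' := hr y0 f l g hS cs hcs
  obtain ⟨hent, hgr⟩ := hg y0 f l g hS cs hcs
  obtain ⟨G, hG⟩ : ∃ G : ℂ → ℂ, G = It f cs := ⟨_, rfl⟩
  rw [← hG] at hr' hent hgr hfew ⊢
  obtain ⟨L, hL⟩ : ∃ L : ℝ, L = l y := ⟨_, rfl⟩
  have hLC : C ≤ L := by rw [hL]; exact hCl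
  have hL1 : 1 ≤ L := by linarith
  have hL0 : 0 < L := by linarith
  obtain ⟨c, hc⟩ : ∃ c : ℂ, c = (3 : ℂ) + I * (y : ℂ) := ⟨_, rfl⟩
  obtain ⟨ρ, hρ⟩ : ∃ ρ : ℝ, ρ = 3 - θ := ⟨_, rfl⟩
  have hcre : c.re = 3 := by rw [hc]; simp
  have hcim : c.im = y := by rw [hc]; simp
  obtain ⟨q, hq⟩ : ∃ q : ℂ → ℂ, q = fun w => G w * Complex.exp (-(L : ℂ) * w) := ⟨_, rfl⟩
  have hqn : ∀ w, ‖q w‖ = ‖G w‖ * Real.exp (-L * w.re) := by
    intro w
    rw [hq]
    simp only [norm_mul, Complex.norm_exp]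
    congr 2
    simp
  have hρ2 : 2 ≤ ρ := by rw [hρ]; linarith
  have hρ3 : ρ ≤ 3 := by rw [hρ]; linarith
  have hnear : ∀ (w : ℂ) (r : ℝ), ‖w - c‖ ≤ r → |w.re - 3| ≤ r ∧ |w.im - y| ≤ r := by
    intro w r h
    constructor
    · have := (abs_re_le_norm (w - c)).trans h
      rwa [sub_re, hcre] at this
    · have := (abs_im_le_norm (w - c)).trans h
      rwa [sub_im, hcim] at this
  have hlh : ∀ v : ℝ, |v - y| ≤ 3 → Cr ≤ l v := by
    intro v hv
    have h3 := hS.shift y (v - y)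
    rw [add_sub_cancel] at h3
    have h4 : Real.log (2 + |v - y|) ≤ Real.log 5 :=
      Real.log_le_log (by positivity) (by linarith)
    have h5 := (abs_le.1 h3).1
    have h6 : K * Real.log (2 + |v - y|) ≤ K * Real.log 5 :=
      mul_le_mul_of_nonneg_left h4 (by linarith)
    rw [← hL] at h5
    have h7 : Cr + K * Real.log 5 ≤ L := by
      rw [hC] at hLC
      linarith
    linarith
  have hball : ∀ w ∈ closedBall c ρ, θ ≤ w.re ∧ w.re ≤ 6 ∧ |w.im - y| ≤ 3 := by
    intro w hw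
    rw [mem_closedBall, dist_eq_norm] at hw
    obtain ⟨q1, q2⟩ := hnear w _ hw
    have q3 := abs_le.1 q1
    refine ⟨by linarith [q3.1], by linarith [q3.2], by linarith⟩
  -- no zeros to the right
  have hne : ∀ w ∈ closedBall c ρ, 7 / 4 ≤ w.re → G w ≠ 0 := by
    intro w hw h
    obtain ⟨p1, p2, p3⟩ := hball w hw
    have h3 := (hr' w.re w.im (hlh _ p3) (by linarith) (by linarith)).1
    rwa [← pt_eq] at h3
  have hexpd : Differentiable ℂ fun w : ℂ => Complex.exp (-(L : ℂ) * w) := by fun_prop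
  have hqd : Differentiable ℂ q := by
    rw [hq]
    exact hent.mul hexpd
  have hqz : ∀ w, q w = 0 ↔ G w = 0 := by
    intro w
    rw [hq]
    simp [Complex.exp_ne_zero]
  have hord : ∀ w, analyticOrderNatAt q w = analyticOrderNatAt G w := by
    intro w
    have e1 : q = G * fun w : ℂ => Complex.exp (-(L : ℂ) * w) := by
      rw [hq]
      rfl
    unfold analyticOrderNatAt
    rw [e1, analyticOrderAt_mul (hent.analyticAt w) (hexpd.analyticAt w),
      (hexpd.analyticAt w).analyticOrderAt_eq_zero.2 (Complex.exp_ne_zero _), add_zero]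
  have hld : ∀ w, G w ≠ 0 → logDeriv q w = logDeriv G w - (L : ℂ) := by
    intro w hw
    rw [hq]
    rw [logDeriv_mul (f := G) (g := fun w : ℂ => Complex.exp (-(L : ℂ) * w)) w hw
      (Complex.exp_ne_zero _) (hent w) (hexpd w)]
    have h3 : logDeriv (fun w : ℂ => Complex.exp (-(L : ℂ) * w)) w = -(L : ℂ) := by
      rw [logDeriv_apply]
      have h4 : HasDerivAt (fun w : ℂ => Complex.exp (-(L : ℂ) * w))
          (Complex.exp (-(L : ℂ) * w) * (-(L : ℂ))) w := by
        have h5 := ((hasDerivAt_id w).const_mul (-(L : ℂ))).cexp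
        simpa using h5
      rw [h4.deriv, mul_div_assoc, mul_comm, div_mul_cancel₀ _ (Complex.exp_ne_zero _)]
    rw [h3, sub_eq_add_neg]
  have hgy := hS.pos y
  have hLk : 1 ≤ L ^ k := one_le_pow₀ hL1
  -- the centre
  have hcen : g y * L ^ k / Cr ≤ ‖q c‖ ∧ ‖q c‖ ≤ Cr * (g y * L ^ k) := by
    obtain ⟨-, -, h5, h6⟩ := hr' 3 y (hlh y (by simp)) (by norm_num) (by norm_num)
    have e0 : ((3 : ℝ) : ℂ) + I * (y : ℂ) = c := by rw [hc]; norm_num
    rw [e0] at h5 h6
    rw [hqn, hcre]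
    unfold Nm at h5 h6
    rw [← hL] at h5 h6
    have hexp : Real.exp (L * 3) * Real.exp (-L * 3) = 1 := by
      rw [← Real.exp_add]
      simp
    constructor
    · calc g y * L ^ k / Cr = g y * Real.exp (L * 3) * L ^ k / Cr * Real.exp (-L * 3) := by
            calc g y * L ^ k / Cr = g y * L ^ k / Cr * (Real.exp (L * 3) * Real.exp (-L * 3)) := by
                  rw [hexp, mul_one]
              _ = _ := by ring
        _ ≤ ‖G c‖ * Real.exp (-L * 3) := mul_le_mul_of_nonneg_right h5 (Real.exp_pos _).le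
    · calc ‖G c‖ * Real.exp (-L * 3) ≤ Cr * (g y * Real.exp (L * 3) * L ^ k) *
            Real.exp (-L * 3) := mul_le_mul_of_nonneg_right h6 (Real.exp_pos _).le
        _ = Cr * (g y * L ^ k) * (Real.exp (L * 3) * Real.exp (-L * 3)) := by ring
        _ = Cr * (g y * L ^ k) := by rw [hexp, mul_one]
  have hqc0 : 0 < ‖q c‖ := lt_of_lt_of_le (by positivity) hcen.1
  -- the upper bound
  have hup : ∀ w ∈ closedBall c ρ, ‖q w‖ ≤ Real.exp (C0 * L) * ‖q c‖ := by
    intro w hw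
    obtain ⟨p1, p2, p3⟩ := hball w hw
    have hw2 : ‖w - c‖ ≤ 3 := by
      rw [mem_closedBall, dist_eq_norm] at hw
      linarith
    have h3 : ‖w - I * (y : ℂ)‖ ≤ 7 := by
      have e : w - I * (y : ℂ) = (w - c) + 3 := by rw [hc]; ring
      rw [e]
      refine (norm_add_le _ _).trans ?_
      have : ‖(3 : ℂ)‖ = 3 := by norm_num
      rw [this]
      linarith
    have h4 := hgr y (by rw [← hL]; exact hL1) _ h3
    rw [sub_add_cancel, ← hL] at h4
    rw [hqn]
    have h5 : Real.exp (-L * w.re) ≤ 1 := by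
      apply Real.exp_le_one_iff.2
      nlinarith
    have h6 : Cr ≤ Real.exp (Cr * L) := by
      have h8 := Real.add_one_le_exp (Cr * L)
      have h9 : Cr * 1 ≤ Cr * L := mul_le_mul_of_nonneg_left hL1 (by linarith)
      linarith
    have h7 : g y ≤ Cr * ‖q c‖ := by
      have h8 := hcen.1
      rw [div_le_iff₀ (by linarith)] at h8
      have h9 : g y * 1 ≤ g y * L ^ k := mul_le_mul_of_nonneg_left hLk hgy.le
      linarith
    calc ‖G w‖ * Real.exp (-L * w.re) ≤ (g y * Real.exp (Cg * L)) * 1 :=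
          mul_le_mul h4 h5 (Real.exp_pos _).le (by positivity)
      _ ≤ (Cr * ‖q c‖) * Real.exp (Cg * L) * 1 := by gcongr
      _ ≤ (Real.exp (Cr * L) * ‖q c‖) * Real.exp (Cg * L) * 1 := by gcongr
      _ = Real.exp ((Cr + Cg) * L) * ‖q c‖ := by
          rw [add_mul, Real.exp_add]
          ring
      _ ≤ Real.exp (C0 * L) * ‖q c‖ := by
          apply mul_le_mul_of_nonneg_right _ hqc0.le
          apply Real.exp_le_exp.2
          apply mul_le_mul_of_nonneg_right _ hL0.le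
          rw [hC0]
          linarith
  have hsmall : ∀ w ∈ closedBall c (5 / 4), q w ≠ 0 ∧ ‖logDeriv q w‖ ≤ C0 := by
    intro w hw
    have hwb : w ∈ closedBall c ρ := closedBall_subset_closedBall (by linarith) hw
    rw [mem_closedBall, dist_eq_norm] at hw
    obtain ⟨q1, q2⟩ := hnear w (5 / 4) hw
    have q3 := abs_le.1 q1
    have hGw := hne w hwb (by linarith [q3.1])
    refine ⟨fun h => hGw ((hqz w).1 h), ?_⟩
    rw [hld w hGw]
    have h3 := (hr' w.re w.im (hlh _ (by linarith)) (by linarith [q3.1]) (by linarith [q3.2])).2.1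
    rw [← pt_eq] at h3
    have h4 := hS.shift y (w.im - y)
    rw [add_sub_cancel, ← hL] at h4
    have h5 : Real.log (2 + |w.im - y|) ≤ Real.log 4 :=
      Real.log_le_log (by positivity) (by linarith)
    have h6 : K * Real.log (2 + |w.im - y|) ≤ K * Real.log 4 :=
      mul_le_mul_of_nonneg_left h5 (by linarith)
    have e : logDeriv G w - (L : ℂ) = (logDeriv G w - (l w.im : ℂ)) + ((l w.im - L : ℝ) : ℂ) := by
      push_cast
      ring
    rw [e]
    refine (norm_add_le _ _).trans ?_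
    rw [Complex.norm_real, Real.norm_eq_abs, hC0]
    linarith
  have hcount : ∀ Z : Finset ℂ, (∀ z ∈ Z, q z = 0 ∧ z ∈ closedBall c ρ) →
      ∑ z ∈ Z, (analyticOrderNatAt q z : ℝ) ≤ η * L := by
    intro Z hZ
    have h3 := hfew Z (fun z hz => by
      obtain ⟨h4, h5⟩ := hZ z hz
      obtain ⟨p1, p2, p3⟩ := hball z h5
      have h6 := (hqz z).1 h4
      have h7 : z.re < 7 / 4 := by
        by_contra h8
        exact hne z h5 (not_lt.1 h8) h6
      exact ⟨h6, p1, by linarith, by linarith⟩)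
    rw [← hL] at h3
    simpa only [hord] using h3
  intro x hx1 hx2
  obtain ⟨z, hz⟩ : ∃ z : ℂ, z = (x : ℂ) + I * (y : ℂ) := ⟨_, rfl⟩
  rw [← hz]
  have hzre : z.re = x := by rw [hz]; simp
  have hzc : ‖z - c‖ ≤ ρ - δ := by
    have e : z - c = ((x - 3 : ℝ) : ℂ) := by
      rw [hz, hc]
      push_cast
      ring
    rw [e, Complex.norm_real, Real.norm_eq_abs, abs_le, hρ]
    constructor <;> linarith
  have r1 := hfb q c ρ L hρ2 hρ3 (by rw [hC] at hLC; linarith) (fun w _ => hqd.analyticAt w)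
    hup hsmall hcount z hzc
  rw [hqn, hzre] at r1
  have hCre : Cr ≤ Real.exp (ε / 2 * L) := by
    have h3 : 2 * Cr / ε ≤ L := by
      rw [hC] at hLC
      linarith
    rw [div_le_iff₀ hε] at h3
    have h4 := Real.add_one_le_exp (ε / 2 * L)
    linarith
  have hexp : Real.exp (L * x) * Real.exp (-L * x) = 1 := by
    rw [← Real.exp_add]
    simp
  unfold Nm
  rw [← hL]
  calc ‖G z‖ = ‖G z‖ * (Real.exp (L * x) * Real.exp (-L * x)) := by rw [hexp, mul_one]
    _ = (‖G z‖ * Real.exp (-L * x)) * Real.exp (L * x) := by ring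
    _ ≤ (Real.exp (ε / 2 * L) * ‖q c‖) * Real.exp (L * x) :=
        mul_le_mul_of_nonneg_right r1 (Real.exp_pos _).le
    _ ≤ (Real.exp (ε / 2 * L) * (Cr * (g y * L ^ k))) * Real.exp (L * x) := by
        apply mul_le_mul_of_nonneg_right _ (Real.exp_pos _).le
        exact mul_le_mul_of_nonneg_left hcen.2 (Real.exp_pos _).le
    _ ≤ (Real.exp (ε / 2 * L) * (Real.exp (ε / 2 * L) * (g y * L ^ k))) * Real.exp (L * x) := by
        apply mul_le_mul_of_nonneg_right _ (Real.exp_pos _).le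
        apply mul_le_mul_of_nonneg_left _ (Real.exp_pos _).le
        exact mul_le_mul_of_nonneg_right hCre (by positivity)
    _ = (Real.exp (ε / 2 * L) * Real.exp (ε / 2 * L)) * (g y * Real.exp (L * x) * L ^ k) := by ring
    _ = Real.exp (ε * L) * (g y * Real.exp (L * x) * L ^ k) := by
        rw [← Real.exp_add]
        congr 2
        ring

end Pool.Agent.Q26.BD
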