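import Pool.Agent.Q260.DS.Stm6
import Pool.Agent.H370R2.DirGood

/-! # Project BD, job GL: few zeros and small values of the L-function -/

set_option autoImplicit false

namespace Pool.Agent.Q26.BD

open Complex Filter Topology Metric Set
open Pool.Agent.W169.HF H353.E H353.F
open scoped ComplexConjugate

/-- order of a linear function -/
theorem ord_sub (a z : ℂ) : analyticOrderAt (fun s : ℂ => s - a) z = ((if z = a then 1 else 0 : ℕ) : ℕ∞) := by
  by_cases h : z = a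
  · rw [if_pos h]
    have h1 : AnalyticAt ℂ (fun s : ℂ => s - a) z := by fun_prop
    rw [h1.analyticOrderAt_eq_natCast]
    refine ⟨fun _ => 1, analyticAt_const, one_ne_zero, Filter.Eventually.of_forall fun w => ?_⟩
    simp [h]
  · rw [if_neg h]
    have h1 : AnalyticAt ℂ (fun s : ℂ => s - a) z := by fun_prop
    rw [Nat.cast_zero, h1.analyticOrderAt_eq_zero]
    exact sub_ne_zero.2 h

/-- the inverse gamma factor -/
theorem gi_eq (w : ℂ) : (Gammaℝ w)⁻¹ = w * (w + 2) * ((4 * (Real.pi : ℂ) ^ 2)⁻¹ * (Gammaℝ (w + 4))⁻¹) := by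
  by_cases h0 : w = 0
  · have : Gammaℝ w = 0 := Gammaℝ_eq_zero_iff.2 ⟨0, by simp [h0]⟩
    rw [this, h0]
    simp
  by_cases h2 : w + 2 = 0
  · have : Gammaℝ w = 0 := Gammaℝ_eq_zero_iff.2 ⟨1, by
      rw [Nat.cast_one, mul_one]
      exact eq_neg_of_add_eq_zero_left h2⟩
    rw [this, h2]
    simp
  have hpi : (Real.pi : ℂ) ≠ 0 := by exact_mod_cast Real.pi_ne_zero
  have e1 := Gammaℝ_add_two h0
  have e2 := Gammaℝ_add_two h2
  rw [e1] at e2
  rw [show w + 4 = w + 2 + 2 by ring, e2]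
  by_cases h3 : Gammaℝ w = 0
  · rw [h3]
    simp
  · field_simp
    norm_num

/-- order of an inverse gamma factor -/
theorem ord_gi {μ z : ℂ} (hμ : μ.re ≤ 1 / 2) (hz : -2 ≤ z.re) :
    analyticOrderAt (fun s : ℂ => (Gammaℝ (s - μ))⁻¹) z =
      (((if z = μ then 1 else 0) + (if z = μ - 2 then 1 else 0) : ℕ) : ℕ∞) := by
  have e : (fun s : ℂ => (Gammaℝ (s - μ))⁻¹) = ((fun s : ℂ => s - μ) * (fun s : ℂ => s - (μ - 2))) *
      (fun s : ℂ => (4 * (Real.pi : ℂ) ^ 2)⁻¹ * (Gammaℝ (s - μ + 4))⁻¹) := by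
    funext s
    rw [gi_eq]
    simp only [Pi.mul_apply]
    ring
  have hd : Differentiable ℂ (fun s : ℂ => (4 * (Real.pi : ℂ) ^ 2)⁻¹ * (Gammaℝ (s - μ + 4))⁻¹) := by
    apply Differentiable.const_mul
    have h1 : Differentiable ℂ (fun s : ℂ => s - μ + 4) := by fun_prop
    exact Complex.differentiable_Gammaℝ_inv.comp h1
  have h1 : AnalyticAt ℂ (fun s : ℂ => s - μ) z := by fun_prop
  have h2 : AnalyticAt ℂ (fun s : ℂ => s - (μ - 2)) z := by fun_prop
  have hpi : (Real.pi : ℂ) ≠ 0 := by exact_mod_cast Real.pi_ne_zero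
  rw [e, analyticOrderAt_mul (h1.mul h2) (hd.analyticAt z), analyticOrderAt_mul h1 h2, ord_sub, ord_sub,
    (hd.analyticAt z).analyticOrderAt_eq_zero.2, add_zero, Nat.cast_add]
  refine mul_ne_zero (inv_ne_zero (mul_ne_zero (by norm_num) (pow_ne_zero _ hpi))) (inv_ne_zero ?_)
  apply Gammaℝ_ne_zero_of_re_pos
  simp only [add_re, sub_re]
  have : (4 : ℂ).re = 4 := by simp
  rw [this]
  linarith

theorem ord_prod {ι : Type*} (S : Finset ι) (f : ι → ℂ → ℂ) (z : ℂ) (n : ι → ℕ)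
    (hd : ∀ i, Differentiable ℂ (f i)) (hn : ∀ i, analyticOrderAt (f i) z = (n i : ℕ∞)) :
    analyticOrderAt (fun s => ∏ i ∈ S, f i s) z = ((∑ i ∈ S, n i : ℕ) : ℕ∞) := by
  classical
  induction S using Finset.induction_on with
  | empty =>
    have h1 : AnalyticAt ℂ (fun _ : ℂ => (1 : ℂ)) z := analyticAt_const
    simp only [Finset.prod_empty, Finset.sum_empty, Nat.cast_zero]
    exact h1.analyticOrderAt_eq_zero.2 one_ne_zero
  | insert a S ha ih =>
    have hdp : Differentiable ℂ (fun s => ∏ i ∈ S, f i s) := Differentiable.fun_finsetProd fun j _ => hd j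
    have e : (fun s => ∏ i ∈ insert a S, f i s) = f a * fun s => ∏ i ∈ S, f i s := by
      funext s
      rw [Finset.prod_insert ha]
      rfl
    rw [e, analyticOrderAt_mul ((hd a).analyticAt z) (hdp.analyticAt z), ih, hn, Finset.sum_insert ha, Nat.cast_add]

/-- number of trivial zeros at `z` -/
noncomputable def tz {m : ℕ} (μ : Fin m → ℂ) (z : ℂ) : ℕ :=
  ∑ j, ((if z = μ j then 1 else 0) + (if z = μ j - 2 then 1 else 0))

theorem ord_LL {m : ℕ} {μ : Fin m → ℂ} {Λ : ℂ → ℂ} (hd : Differentiable ℂ Λ) (hμ : ∀ j, (μ j).re ≤ 1 / 2)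
    {z : ℂ} (hz : -2 ≤ z.re) : analyticOrderAt (Q240.GS.LL μ Λ) z = analyticOrderAt Λ z + (tz μ z : ℕ∞) := by
  have hdj : ∀ j, Differentiable ℂ (fun s : ℂ => (Gammaℝ (s - μ j))⁻¹) := fun j =>
    Complex.differentiable_Gammaℝ_inv.comp (differentiable_id.sub_const (μ j))
  have e : Q240.GS.LL μ Λ = Λ * fun s => ∏ j, (Gammaℝ (s - μ j))⁻¹ := by
    funext s
    rfl
  have hdp : Differentiable ℂ (fun s => ∏ j, (Gammaℝ (s - μ j))⁻¹) :=
    Differentiable.fun_finsetProd fun j _ => hdj j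
  rw [e, analyticOrderAt_mul (hd.analyticAt z) (hdp.analyticAt z)]
  congr 1
  exact ord_prod Finset.univ (fun j s => (Gammaℝ (s - μ j))⁻¹) z _ hdj fun j => ord_gi (hμ j) hz

theorem tz_sum {m : ℕ} (μ : Fin m → ℂ) (Z : Finset ℂ) : ∑ z ∈ Z, tz μ z ≤ 2 * m := by
  classical
  unfold tz
  rw [Finset.sum_comm]
  calc ∑ j, ∑ z ∈ Z, ((if z = μ j then 1 else 0) + (if z = μ j - 2 then 1 else 0))
      ≤ ∑ _j : Fin m, 2 := by
        refine Finset.sum_le_sum fun j _ => ?_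
        rw [Finset.sum_add_distrib, Finset.sum_ite_eq', Finset.sum_ite_eq']
        split_ifs <;> norm_num
    _ = 2 * m := by
        rw [Finset.sum_const, Finset.card_univ, Fintype.card_fin, smul_eq_mul, mul_comm]

section ob

variable {m : ℕ} {N : ℝ} {μ : Fin m → ℂ} {Λ : ℂ → ℂ}

theorem ord_refl' (h : Q240.GS.Ob N μ Λ) (s : ℂ) :
    analyticOrderAt Λ (1 - conj s) = analyticOrderAt Λ s := by
  obtain ⟨α, ε, d, -⟩ := h
  have hN : 0 < N := lt_of_lt_of_le one_pos d.one_le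
  have hNc : (N : ℂ) ≠ 0 := by exact_mod_cast hN.ne'
  have hε : ε ≠ 0 := by
    intro h0
    have := d.norm_eq
    rw [h0, norm_zero] at this
    norm_num at this
  have e : Λ = (fun s : ℂ => ε * (N : ℂ) ^ (1 / 2 - s)) * H370.DL.refl Λ := by
    funext s
    exact d.fe s
  have hd1 : Differentiable ℂ (fun s : ℂ => ε * (N : ℂ) ^ (1 / 2 - s)) := by
    intro s
    have h1 : DifferentiableAt ℂ (fun s : ℂ => (N : ℂ) ^ (1 / 2 - s)) s := by
      apply DifferentiableAt.const_cpow (by fun_prop)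
      exact Or.inl hNc
    exact h1.const_mul ε
  have hne : ε * (N : ℂ) ^ (1 / 2 - s) ≠ 0 := by
    refine mul_ne_zero hε fun h0 => hNc ?_
    exact (Complex.cpow_eq_zero_iff _ _ |>.1 h0).1
  have h2 : analyticOrderAt Λ s = analyticOrderAt ((fun s : ℂ => ε * (N : ℂ) ^ (1 / 2 - s)) * H370.DL.refl Λ) s := by
    rw [← e]
  rw [h2, analyticOrderAt_mul (hd1.analyticAt s) (H370.DL.analyticAt_refl (d.entire.analyticAt _)),
    (hd1.analyticAt s).analyticOrderAt_eq_zero.2 hne, zero_add, H370.DL.order_refl (d.entire.analyticAt _)]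

theorem ord_fin (h : Q240.GS.Ob N μ Λ) (s : ℂ) : analyticOrderAt Λ s ≠ ⊤ := by
  obtain ⟨α, ε, d, hnz⟩ := h
  have h1 : AnalyticOnNhd ℂ Λ univ := fun z _ => d.entire.analyticAt z
  refine h1.analyticOrderAt_ne_top_of_isPreconnected (x := 2) isPreconnected_univ (mem_univ _) (mem_univ _) ?_
  rw [(d.entire.analyticAt 2).analyticOrderAt_eq_zero.2 (hnz 2 (by simp))]
  simp

theorem nat_LL (h : Q240.GS.Ob N μ Λ) {z : ℂ} (hz : -2 ≤ z.re) :
    analyticOrderNatAt (Q240.GS.LL μ Λ) z = analyticOrderNatAt Λ z + tz μ z := by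
  have hf := ord_fin h z
  obtain ⟨α, ε, d, hnz⟩ := h
  unfold analyticOrderNatAt
  rw [ord_LL d.entire d.re_le hz]
  obtain ⟨n, hn⟩ := ENat.ne_top_iff_exists.1 hf
  rw [← hn, ← Nat.cast_add]
  rfl

theorem nat_refl (h : Q240.GS.Ob N μ Λ) (s : ℂ) :
    analyticOrderNatAt Λ (1 - conj s) = analyticOrderNatAt Λ s := by
  unfold analyticOrderNatAt
  rw [ord_refl' h]

theorem re_le_one (h : Q240.GS.Ob N μ Λ) {s : ℂ} (hs : Λ s = 0) : s.re ≤ 1 := by
  obtain ⟨α, ε, d, hnz⟩ := h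
  by_contra h2
  exact hnz s (not_le.1 h2) hs

theorem refl_inj : Function.Injective fun z : ℂ => 1 - conj z := by
  intro a b h
  have h1 : conj a = conj b := by
    have := congrArg (fun t => 1 - t) h
    simpa using this
  exact (starRingEnd ℂ).injective h1

/-- few zeros on the right give few zeros on the left -/
theorem am_of_few (h : Q240.GS.Ob N μ Λ) {θ δ a t x : ℝ} (ha : a ≤ 1 - (θ + δ))
    (hf : Pool.Agent.Q260.DS.FewL Λ (θ + δ) t x) : Q240.GS.AM Λ a 1 t x := by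
  classical
  intro Z hZ
  have h1 := hf (Z.image fun z => 1 - conj z) (fun z hz => by
    obtain ⟨w, hw, rfl⟩ := Finset.mem_image.1 hz
    obtain ⟨q1, q2, q3, q4⟩ := hZ w hw
    have q5 := Q240.GS.refl_zero h q1
    have q6 := re_le_one h q5
    refine ⟨q5, ?_, by linarith, by simpa using q4⟩
    simp only [sub_re, one_re, conj_re]
    linarith)
  rw [Finset.sum_image fun x _ y _ hxy => refl_inj hxy] at h1
  refine le_trans (le_of_eq (Finset.sum_congr rfl fun z _ => ?_)) h1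
  rw [nat_refl h]
  rfl

/-- the function `FF` is `LL` -/
theorem ff_one (μ : Fin m → ℂ) (Λ : ℂ → ℂ) (c : ℝ → ℂ) : Q240.GS.FF μ Λ 1 ∅ c = Q240.GS.LL μ Λ := by
  funext s
  exact Q240.GS.FF_one μ Λ c s

/-- zeros of the finite L-function on the left -/
theorem am_LL (h : Q240.GS.Ob N μ Λ) {a r T x : ℝ} (hf : Q240.GS.AM Λ a r T x) :
    Q240.GS.AM (Q240.GS.LL μ Λ) a r T (x + 2 * m) := by
  classical
  intro Z hZ
  have h1 := hf (Z.filter fun z => Λ z = 0) (fun z hz => by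
    obtain ⟨q0, q1⟩ := Finset.mem_filter.1 hz
    obtain ⟨-, q2, q3, q4⟩ := hZ z q0
    exact ⟨q1, q2, q3, q4⟩)
  have h2 : ∑ z ∈ Z with Λ z = 0, (H370.mult Λ z : ℝ) = ∑ z ∈ Z, (H370.mult Λ z : ℝ) := by
    refine Finset.sum_subset (Finset.filter_subset _ _) fun z hz hn => ?_
    have h3 : Λ z ≠ 0 := fun h4 => hn (Finset.mem_filter.2 ⟨hz, h4⟩)
    obtain ⟨α, ε, d, -⟩ := h
    have h5 := (d.entire.analyticAt z).analyticOrderAt_eq_zero.2 h3
    unfold H370.mult analyticOrderNatAt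
    rw [h5]
    simp
  rw [h2] at h1
  have h3 : ∑ z ∈ Z, (H370.mult (Q240.GS.LL μ Λ) z : ℝ) =
      ∑ z ∈ Z, (H370.mult Λ z : ℝ) + ∑ z ∈ Z, (tz μ z : ℝ) := by
    rw [← Finset.sum_add_distrib]
    refine Finset.sum_congr rfl fun z hz => ?_
    unfold H370.mult
    rw [nat_LL h (hZ z hz).2.1]
    push_cast
    ring
  have h4 : ∑ z ∈ Z, (tz μ z : ℝ) ≤ 2 * m := by exact_mod_cast tz_sum μ Z
  rw [h3]
  linarith

/-- few zeros on the left of the finite L-function give few zeros on the right -/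
theorem few_of_am (h : Q240.GS.Ob N μ Λ) {θ δ T x : ℝ} (hθ : 1 / 2 ≤ θ) (hδ : 0 < δ)
    (hf : Q240.GS.AM (Q240.GS.LL μ Λ) (1 - θ - δ) 1 T x) : Pool.Agent.Q260.DS.FewL Λ (θ + δ) T x := by
  classical
  intro Z hZ
  have h1 := hf (Z.image fun z => 1 - conj z) (fun z hz => by
    obtain ⟨w, hw, rfl⟩ := Finset.mem_image.1 hz
    obtain ⟨q1, q2, q3, q4⟩ := hZ w hw
    have q5 := Q240.GS.refl_zero h q1
    have q6 := re_le_one h q1
    refine ⟨?_, ?_, ?_, by simpa using q4⟩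
    · unfold Q240.GS.LL
      rw [q5, zero_mul]
    · simp only [sub_re, one_re, conj_re]
      linarith
    · simp only [sub_re, one_re, conj_re]
      linarith)
  rw [Finset.sum_image fun x _ y _ hxy => refl_inj hxy] at h1
  refine le_trans (Finset.sum_le_sum fun z hz => ?_) h1
  unfold H370.mult
  have q6 := re_le_one h (hZ z hz).1
  rw [nat_LL h (by simp only [sub_re, one_re, conj_re]; linarith), nat_refl h]
  push_cast
  have : (0 : ℝ) ≤ (tz μ (1 - conj z) : ℝ) := Nat.cast_nonneg _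
  linarith

end ob

/-- JOB GL. -/
theorem t_GL : Pool.Agent.Q260.DS.S_GL := by
  intro m θ hm hθ hθ1
  have hm0 : (0 : ℝ) ≤ m := Nat.cast_nonneg m
  refine ⟨fun ε hε => ?_, fun δ hδ => ?_⟩
  · obtain ⟨η, h, C₀, hη, hh, H⟩ := Q240.GS.few_L (m := m) hm 1 one_ne_zero ∅ 0 (1 - θ) ε le_rfl
      (by linarith) (by linarith) hε
    obtain ⟨n, hn⟩ := exists_nat_ge h
    have hn0 : (0 : ℝ) < n := lt_of_lt_of_le hh hn
    obtain ⟨δ, hδd⟩ : ∃ δ : ℝ, δ = η / (2 * (n + 1)) := ⟨_, rfl⟩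
    have hδ : 0 < δ := by rw [hδd]; positivity
    have hδη : δ ≤ η := by
      rw [hδd, div_le_iff₀ (by positivity)]
      nlinarith
    refine ⟨δ, n, |C₀| + 4 * m / η + 1, hδ, hn0, ?_, ?_⟩
    · have : 0 ≤ 4 * m / η := by positivity
      linarith [abs_nonneg C₀]
    intro N μ Λ hO T hC hfew
    obtain ⟨W, hW⟩ : ∃ W : ℝ, W = Real.log (Q240.GS.cnd N μ T) := ⟨_, rfl⟩
    rw [← hW] at hC hfew ⊢
    have h4m : 0 ≤ 4 * m / η := by positivity
    have hW1 : 4 * m / η ≤ W := by linarith [abs_nonneg C₀]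
    have hWC : C₀ ≤ W := by linarith [le_abs_self C₀]
    have hW2 : 4 * m ≤ η * W := by
      rw [div_le_iff₀ hη] at hW1
      linarith
    have hO' : Q240.GS.Ob N μ Λ := hO
    have h1 : Q240.GS.AM Λ (1 - θ - η) h T ((n + 1) * (δ * W)) :=
      Q240.GS.AM_cover n hn fun t ht => am_of_few hO' (by linarith) (hfew t ht)
    have h2 := am_LL hO' h1
    have h3 := H N μ Λ hO' (fun _ => 0) T (by simp) (by rw [← hW]; exact hWC) (by
      rw [ff_one, ← hW]
      refine h2.mono le_rfl (by simp) ?_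
      have e : ((n : ℝ) + 1) * (δ * W) = η * W / 2 := by
        rw [hδd]
        field_simp
      rw [e]
      linarith)
    have e2 : (⟨1 - (1 - θ), T⟩ : ℂ) = (θ : ℂ) + (T : ℂ) * I := by
      apply Complex.ext <;> simp
    rw [e2, ← hW] at h3
    exact h3
  · obtain ⟨η, h, C₀, hη, hh, H⟩ := Q240.GS.L_few (m := m) hm 1 one_ne_zero ∅ 0 (1 - θ) δ le_rfl
      (by linarith) (by linarith) hδ
    have hlog : 0 ≤ (m : ℝ) * Real.log (1 + h) := mul_nonneg hm0 (Real.log_nonneg (by linarith))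
    refine ⟨η / 2, h, |C₀| + 2 * (m * Real.log (1 + h)) + 1, by positivity, hh, by linarith [abs_nonneg C₀], ?_⟩
    intro N μ Λ hO T hC hv
    obtain ⟨W, hW⟩ : ∃ W : ℝ, W = Real.log (Q240.GS.cnd N μ T) := ⟨_, rfl⟩
    rw [← hW] at hC hv ⊢
    have hO' : Q240.GS.Ob N μ Λ := hO
    have hN1 : 1 ≤ N := by
      obtain ⟨α, ε, d, -⟩ := hO
      exact d.one_le
    have hWC : C₀ ≤ W := by linarith [le_abs_self C₀]
    have h1 := H N μ Λ hO' (fun _ => 0) T (by simp) (by rw [← hW]; exact hWC) (fun t ht => by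
      have e2 : (⟨1 - (1 - θ), t⟩ : ℂ) = (θ : ℂ) + (t : ℂ) * I := by
        apply Complex.ext <;> simp
      rw [e2]
      refine (hv t ht).trans (Real.exp_le_exp.2 ?_)
      have h2 := Q240.GS.logm_shift hN1 μ (y := T) (y' := t) (R := h) (ht.trans (le_abs_self h))
      rw [abs_of_pos hh, ← hW] at h2
      have h3 : W ≤ 2 * Real.log (Q240.GS.cnd N μ t) := by linarith [abs_nonneg C₀]
      calc η / 2 * W ≤ η / 2 * (2 * Real.log (Q240.GS.cnd N μ t)) := mul_le_mul_of_nonneg_left h3 (by positivity)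
        _ = _ := by ring)
    rw [ff_one, ← hW] at h1
    exact few_of_am hO' hθ hδ h1

end Pool.Agent.Q26.BD
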